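import Pool.Agent.HMT.Stmts

/-!
Squad HMT, row CON: partitions with all edges inside the blocks.
-/

namespace Pool.Agent.HMT.H65

variable {F : Fr} {A : Finset F.R}

theorem con_unique {v : F.J ⊕ F.R} {l : F.J} (h : F.Con A v l) :
    ∀ l', F.Con A v l' → l = l' := by
  induction h with
  | root j =>
    intro l' h'
    cases h'
    rfl
  | step r j hr h ih =>
    intro l' h'
    cases h' with
    | step _ _ _ h2 => exact ih l' h2

theorem con_mem {r : F.R} {l : F.J} (h : F.Con A (Sum.inr r) l) : r ∈ A := by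
  cases h with
  | step _ _ h1 _ => exact h1

theorem con_par {r : F.R} {l : F.J} (h : F.Con A (Sum.inr r) l) : F.Con A (F.par r) l := by
  cases h with
  | step _ _ _ h2 => exact h2

theorem con_root {l l' : F.J} (h : F.Con A (Sum.inl l) l') : l = l' := by
  cases h
  rfl

variable {s : ℕ} {j k : F.J} {ψ : Equiv.Perm F.R}

theorem psi_k (h : F.Xch A s j k ψ) {r : F.R} (hr : F.Con A (Sum.inr r) k) :
    F.Con A (Sum.inr (ψ.symm r)) j := by
  by_contra h1
  by_cases h2 : F.Con A (Sum.inr (ψ.symm r)) k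
  · have h3 := h.kj _ h2
    rw [Equiv.apply_symm_apply] at h3
    exact h.ne (con_unique h3 k hr)
  · have h3 := h.fix _ h1 h2
    rw [Equiv.apply_symm_apply] at h3
    rw [← h3] at h2
    exact h2 hr

theorem psi_j (h : F.Xch A s j k ψ) {r : F.R} (hr : F.Con A (Sum.inr r) j) :
    F.Con A (Sum.inr (ψ.symm r)) k := by
  by_contra h1
  by_cases h2 : F.Con A (Sum.inr (ψ.symm r)) j
  · have h3 := h.jk _ h2
    rw [Equiv.apply_symm_apply] at h3
    exact h.ne (con_unique hr k h3)
  · have h3 := h.fix _ h2 h1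
    rw [Equiv.apply_symm_apply] at h3
    rw [← h3] at h2
    exact h2 hr

theorem psi_n (h : F.Xch A s j k ψ) {r : F.R} (h1 : ¬ F.Con A (Sum.inr r) j)
    (h2 : ¬ F.Con A (Sum.inr r) k) : ψ.symm r = r := by
  have h3 : ¬ F.Con A (Sum.inr (ψ.symm r)) j := by
    intro h4
    have h5 := h.jk _ h4
    rw [Equiv.apply_symm_apply] at h5
    exact h2 h5
  have h4 : ¬ F.Con A (Sum.inr (ψ.symm r)) k := by
    intro h5
    have h6 := h.kj _ h5
    rw [Equiv.apply_symm_apply] at h6
    exact h1 h6
  have h5 := h.fix _ h3 h4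
  rw [Equiv.apply_symm_apply] at h5
  exact h5.symm

theorem hat_k (h : F.Xch A s j k ψ) {v : F.J ⊕ F.R} (hv : F.Con A v k) :
    F.Con A (F.hat j k ψ.symm v) j := by
  rcases v with l | r
  · have h1 : l = k := con_root hv
    subst h1
    have h2 : F.hat j l ψ.symm (Sum.inl l) = Sum.inl j := by
      unfold Fr.hat
      rw [Sum.map_inl, Equiv.swap_apply_right]
    rw [h2]
    exact Fr.Con.root j
  · exact psi_k h hv

theorem hat_j (h : F.Xch A s j k ψ) {v : F.J ⊕ F.R} (hv : F.Con A v j) :
    F.Con A (F.hat j k ψ.symm v) k := by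
  rcases v with l | r
  · have h1 : l = j := con_root hv
    subst h1
    have h2 : F.hat l k ψ.symm (Sum.inl l) = Sum.inl k := by
      unfold Fr.hat
      rw [Sum.map_inl, Equiv.swap_apply_left]
    rw [h2]
    exact Fr.Con.root k
  · exact psi_j h hv

theorem hat_n (h : F.Xch A s j k ψ) {v : F.J ⊕ F.R} (h1 : ¬ F.Con A v j)
    (h2 : ¬ F.Con A v k) : F.hat j k ψ.symm v = v := by
  rcases v with l | r
  · have h3 : l ≠ j := by
      intro h3
      rw [h3] at h1
      exact h1 (Fr.Con.root j)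
    have h4 : l ≠ k := by
      intro h4
      rw [h4] at h2
      exact h2 (Fr.Con.root k)
    unfold Fr.hat
    rw [Sum.map_inl, Equiv.swap_apply_of_ne_of_ne h3 h4]
  · unfold Fr.hat
    rw [Sum.map_inr, psi_n h h1 h2]

theorem con : ConStmt := by
  intro F ε ε' hε A s j k ψ h π hA
  have ha : ∀ v l, F.Con A v l → π.r (Sum.inr (Sum.inl l)) (Sum.inr v) := by
    intro v l hv
    induction hv with
    | root l => exact π.refl _
    | step r l hr _ ih => exact π.trans ih (hA r hr)
  refine ⟨ha, ?_, ?_⟩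
  · intro r hr
    change π.r (Sum.inr (F.hat j k ψ.symm (F.par r)))
      (Sum.inr (F.hat j k ψ.symm (Sum.inr r)))
    by_cases h1 : F.Con A (Sum.inr r) k
    · have h2 := ha _ _ (hat_k h (con_par h1))
      have h3 := ha _ _ (hat_k h h1)
      exact π.trans (π.symm h2) h3
    · by_cases h2 : F.Con A (Sum.inr r) j
      · have h3 := ha _ _ (hat_j h (con_par h2))
        have h4 := ha _ _ (hat_j h h2)
        exact π.trans (π.symm h3) h4
      · have h3 : ¬ F.Con A (F.par r) j := fun h3 => h2 (Fr.Con.step r j hr h3)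
        have h4 : ¬ F.Con A (F.par r) k := fun h4 => h1 (Fr.Con.step r k hr h4)
        rw [hat_n h h3 h4, hat_n h h2 h1]
        exact hA r hr
  · ext r
    rw [Finset.mem_map_equiv]
    by_cases h1 : F.Con A (Sum.inr r) k
    · exact ⟨fun _ => con_mem h1, fun _ => con_mem (psi_k h h1)⟩
    · by_cases h2 : F.Con A (Sum.inr r) j
      · exact ⟨fun _ => con_mem h2, fun _ => con_mem (psi_j h h2)⟩
      · rw [psi_n h h2 h1]

end Pool.Agent.HMT.H65
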